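import Pool.Agent.X17.MonogenicTwo

set_option autoImplicit false

/-!
# Monogenicity of the irreducible factors of `F_n(x)` for even `n`

If an odd `m > 1` divides the even number `n`, and `ζ` is a primitive `m`-th root of unity, then the
minimal polynomial of `ζ - ζ⁻¹` divides `F_n` and is not monogenic. For `n = 2 ^ k` one has
`F_n = x L_2 L_4 ⋯ L_{n/2}`, where each `L_{2^j}` (`j ≥ 1`) is Eisenstein at `2` with discriminant a
power of two up to sign, hence monogenic.
-/

namespace Pool.Agent.Results.MP_b164a8_nt.EvenFibonacci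

open Polynomial Pool.Agent.X17.Monogenic

/-- **Theorem.** For even `n ≥ 2`, every monic irreducible factor of the Fibonacci polynomial `F_n`
is monogenic if and only if `n` is a power of two. -/
theorem result (n : ℕ) (hn : Even n) (hn2 : 2 ≤ n) :
    (∀ f : ℤ[X], f.Monic → Irreducible f → f ∣ fibo n → IsMonogenic f) ↔ ∃ k : ℕ, n = 2 ^ k := by
  constructor
  · intro H
    obtain ⟨k, m, hm, hnm⟩ := Nat.exists_eq_two_pow_mul_odd (n := n) (by omega)
    by_cases hm1 : m = 1
    · exact ⟨k, by rw [hnm, hm1, mul_one]⟩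
    exfalso
    have hpos : 0 < m := hm.pos
    have hprim := Complex.isPrimitiveRoot_exp m hpos.ne'
    set ζ := Complex.exp (2 * Real.pi * Complex.I / m) with hζ
    have h1 : ζ ≠ 1 := hprim.ne_one (by omega)
    obtain ⟨hmem, hint, hnot⟩ := not_adjoin m hm ζ hprim.pow_eq_one h1
    have hζ0 : ζ ≠ 0 := hprim.ne_zero hpos.ne'
    have hζn : ζ ^ n = 1 := by rw [hnm, mul_comm, pow_mul, hprim.pow_eq_one, one_pow]
    have hne : ζ + ζ⁻¹ ≠ 0 := by
      intro h
      have e : ζ * ζ⁻¹ = 1 := mul_inv_cancel₀ hζ0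
      have h2 : ζ ^ 2 = -1 := by linear_combination ζ * h - e
      have h3 : (ζ ^ 2) ^ m = 1 := by rw [← pow_mul, mul_comm, pow_mul, hprim.pow_eq_one, one_pow]
      rw [h2, hm.neg_one_pow] at h3
      norm_num at h3
    have hroot : aeval (ζ - ζ⁻¹) (fibo n) = 0 := by
      have h2 := aeval_fibo ζ hζ0 n
      rw [hn.neg_pow, inv_pow, hζn, inv_one, sub_self] at h2
      exact (mul_eq_zero.1 h2).resolve_right hne
    have hθint : IsIntegral ℤ (ζ - ζ⁻¹) := by
      refine hint.sub ?_
      exact IsIntegral.of_pow hpos (by rw [inv_pow, hprim.pow_eq_one, inv_one]; exact isIntegral_one)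
    have := H (minpoly ℤ (ζ - ζ⁻¹)) (minpoly.monic hθint) (minpoly.irreducible hθint)
      (minpoly.isIntegrallyClosed_dvd hθint hroot) (ζ - ζ⁻¹) (minpoly.aeval ℤ _)
    apply hnot
    have h2 : ζ ∈ {y : ℂ | y ∈ IntermediateField.adjoin ℚ ({ζ - ζ⁻¹} : Set ℂ) ∧ IsIntegral ℤ y} :=
      ⟨hmem, hint⟩
    rw [this] at h2
    exact h2
  · rintro ⟨k, rfl⟩ f hf hirr hdvd
    exact irreducible_dvd_fibo k f hf hirr hdvd

end Pool.Agent.Results.MP_b164a8_nt.EvenFibonacci
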